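import Mathlib
import Pool.Agent.H557Z.PtMain

namespace Pool.Agent.Results.MP_f8fbfa_gt.ATychonoff

/-- There is a Tychonoff (abelian) paratopological group whose space is rectifiable but is not
homeomorphic to any topological group. -/
theorem result :
    ∃ (G : Type) (_ : CommGroup G) (_ : TopologicalSpace G), ContinuousMul G ∧ T35Space G ∧
      (∃ (φ : (G × G) ≃ₜ (G × G)) (e : G),
        (∀ p : G × G, (φ p).1 = p.1) ∧ ∀ x : G, φ (x, x) = (x, e)) ∧
      ∀ (H : Type) [Group H] [TopologicalSpace H] [IsTopologicalGroup H], IsEmpty (G ≃ₜ H) :=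
  Pool.Agent.H557Z.Pt.main

end Pool.Agent.Results.MP_f8fbfa_gt.ATychonoff
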